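import Pool.Agent.Lib.MP_a3e05c_co.S3.Case2
import Pool.Agent.Lib.MP_a3e05c_co.IRR.HsAnti

/-!
# EULER, block S3: the degrees 2 and 4

`D = 4`: the tangent bound `log y ≤ log (2/3) + (3 y / 2 - 1)` makes the bound of `type_bound`
linear, and `log F ≤ log a + (F - a)/a` for `a = 17/24, 19/32, 1/2` (two, three, four non-full
neighbours) leaves three numerical inequalities.
-/

open Finset

namespace MP_a3e05c_co.KL

variable {V E : Type} [Fintype V] [DecidableEq V] [Fintype E] [DecidableEq E]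

private theorem S3D_bb1 : bb 1 = 1 / 2 := by
  unfold bb
  norm_num [Nat.centralBinom]

private theorem S3D_bb2 : bb 2 = 3 / 8 := by
  have h := bb_succ 1
  rw [S3D_bb1] at h
  norm_num at h
  linarith

private theorem S3D_FF4 (v : ℝ) : FF 4 0 v = 1 - v / 4 + 3 / 8 * (v / 4) ^ 2 := by
  have h0 : bb 0 = 1 := by simp [bb]
  have h1 := S3D_bb1
  have h2 := S3D_bb2
  have e : FF 4 0 v = BN 2 (v / 4) 0 := by
    unfold FF
    norm_num
  rw [e]
  unfold BN
  simp only [sum_range_succ, sum_range_zero, zero_add, h0, h1, h2]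
  norm_num [Nat.choose]
  ring

private theorem S3D_FF2 : FF 2 0 2 = 1 / 2 := by
  have h1 := S3D_bb1
  have e : FF 2 0 2 = BN 1 1 0 := by
    unfold FF
    norm_num
  rw [e]
  unfold BN
  simp only [sum_range_succ, sum_range_zero, zero_add, h1]
  norm_num

private theorem S3D_log_tangent {x a : ℝ} (hx : 0 < x) (ha : 0 < a) :
    Real.log x ≤ Real.log a + (x - a) / a := by
  have h := Real.log_le_sub_one_of_pos (div_pos hx ha)
  rw [Real.log_div hx.ne' ha.ne'] at h
  have h2 : (x - a) / a = x / a - 1 := by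
    field_simp
  rw [h2]
  linarith

private theorem S3D_L3 : 109 / 100 ≤ Real.log 3 := by
  have h1 := Real.log_two_gt_d9
  have h2 := Real.le_log_one_add_of_nonneg (x := 1 / 2) (by norm_num)
  have h3 : Real.log (1 + 1 / 2) = Real.log 3 - Real.log 2 := by
    rw [← Real.log_div (by norm_num) (by norm_num)]
    norm_num
  rw [h3] at h2
  norm_num at h1 h2 ⊢
  linarith

private theorem S3D_L5 : 1608 / 1000 ≤ Real.log 5 := by
  have h1 := Real.log_two_gt_d9
  have h2 := Real.le_log_one_add_of_nonneg (x := 1 / 4) (by norm_num)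
  have h3 : Real.log (1 + 1 / 4) = Real.log 5 - 2 * Real.log 2 := by
    have h4 : Real.log (2 ^ 2 : ℝ) = 2 * Real.log 2 := by
      rw [Real.log_pow]
      norm_num
    rw [← h4, ← Real.log_div (by norm_num) (by norm_num)]
    norm_num
  rw [h3] at h2
  norm_num at h1 h2 ⊢
  linarith

private theorem S3D_AA4 : -AA 4 ≤ 7525 / 10000 := by
  have h0 := rt_low 5 (by decide) (by norm_num) (by norm_num)
  have h1 : (24 : ℝ) ≤ (RT 5 : ℝ) := by
    have : NUM.RTl 5 = 24 := by decide
    rw [this] at h0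
    exact_mod_cast h0
  have h2 : (3 : ℝ) / 128 ≤ PK 5 := by
    unfold PK
    rw [le_div_iff₀ (by positivity)]
    norm_num
    exact_mod_cast h1
  have h3 : Real.log (3 / 128) ≤ Real.log (PK 5) := Real.log_le_log (by norm_num) h2
  have h4 : Real.log (3 / 128) = Real.log 3 - 7 * Real.log 2 := by
    have h5 : Real.log (2 ^ 7 : ℝ) = 7 * Real.log 2 := by
      rw [Real.log_pow]
      norm_num
    rw [← h5, ← Real.log_div (by norm_num) (by norm_num)]
    norm_num
  have h6 : AA 4 = Real.log (PK 5) / 5 := by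
    unfold AA
    norm_num
  have h7 := Real.log_two_lt_d9
  have h8 := S3D_L3
  rw [h6]
  rw [h4] at h3
  norm_num at h7 h8 ⊢
  linarith

private theorem S3D_gp : 142 / 1000 ≤ -(1 / 2) * Real.log (2 / 3) - pp (((4 : ℕ) : ℝ) - 1) (4 - 1) := by
  have e : (((4 : ℕ) : ℝ) - 1) = 3 := by norm_num
  have h1 : pp (((4 : ℕ) : ℝ) - 1) (4 - 1) =
      (-(1 / 2) * Real.log (25 / 27) + -(1 / 2) * Real.log (2 / 3)) / 4 := by
    rw [e]
    unfold pp gg xx
    simp only [Nat.reduceSub, sum_range_succ, sum_range_zero]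
    norm_num
  have h2 : Real.log (25 / 27) = 2 * Real.log 5 - 3 * Real.log 3 := by
    have h5 : Real.log (5 ^ 2 : ℝ) = 2 * Real.log 5 := by
      rw [Real.log_pow]
      norm_num
    have h6 : Real.log (3 ^ 3 : ℝ) = 3 * Real.log 3 := by
      rw [Real.log_pow]
      norm_num
    rw [← h5, ← h6, ← Real.log_div (by norm_num) (by norm_num)]
    norm_num
  have h3 : Real.log (2 / 3) = Real.log 2 - Real.log 3 :=
    Real.log_div (by norm_num) (by norm_num)
  have h4 := S3D_L5
  have h7 := Real.log_two_lt_d9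
  rw [h1, h2, h3]
  norm_num at h4 h7 ⊢
  linarith

/-- the three inequalities for `D = 4` -/
private theorem S3D_num {m : ℕ} (hm : m = 2 ∨ m = 3 ∨ m = 4) {v : ℝ} (h1 : 2 / 3 * (m : ℝ) ≤ v)
    (h2 : v ≤ m) : Real.log (FF 4 0 v) ≤ AA 4 + 4 * hs 4 - m * hs 4 +
      (m * (142 / 1000) - (3 / 2 * v - m) / 2) / 3 := by
  have hT := (TT_tab rt_low).2.1
  have hA := S3D_AA4
  have hq := TT_eq (d := 4) (by norm_num)
  push_cast at hq
  rw [S3D_FF4]
  have hpos : 0 < 1 - v / 4 + 3 / 8 * (v / 4) ^ 2 := by nlinarith [sq_nonneg (3 * v / 4 - 4)]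
  rcases hm with rfl | rfl | rfl
  · push_cast at h1 h2 ⊢
    have h3 := S3D_log_tangent hpos (a := 17 / 24) (by norm_num)
    have h4 : Real.log (17 / 24) ≤ -(14 / 41) := by
      have h5 := Real.le_log_one_add_of_nonneg (x := 7 / 17) (by norm_num)
      have h6 : Real.log (1 + 7 / 17) = -Real.log (17 / 24) := by
        rw [← Real.log_inv]
        norm_num
      rw [h6] at h5
      norm_num at h5 ⊢
      linarith
    nlinarith
  · push_cast at h1 h2 ⊢
    have h3 := S3D_log_tangent hpos (a := 19 / 32) (by norm_num)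
    have h4 : Real.log (19 / 32) ≤ -(26 / 51) := by
      have h5 := Real.le_log_one_add_of_nonneg (x := 13 / 19) (by norm_num)
      have h6 : Real.log (1 + 13 / 19) = -Real.log (19 / 32) := by
        rw [← Real.log_inv]
        norm_num
      rw [h6] at h5
      norm_num at h5 ⊢
      linarith
    nlinarith
  · push_cast at h1 h2 ⊢
    have h3 := S3D_log_tangent hpos (a := 1 / 2) (by norm_num)
    have h4 : Real.log (1 / 2) ≤ -(69 / 100) := by
      have h5 := Real.log_two_gt_d9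
      rw [one_div, Real.log_inv]
      norm_num at h5 ⊢
      linarith
    nlinarith

/-- **C2, at least two non-full neighbours**, `D = 4`. -/
theorem S3_four {hd : E → Bool → V} (hs : Simple hd) (hev : ∀ v, Even (deg hd v)) {A : Finset V}
    (hT : Top hd A 4) {w : V} (hw : w ∈ A) (hwf : Full hd A w) (hwD : deg hd w = 4)
    (h2 : 2 ≤ ((nb hd A w).filter fun u => kk hd A u < deg hd u).card) : Red hd A := by
  refine S3_step hs hev hT hw hwf hwD (fun d hd h2 h4 => hs_anti d 4 hd (by decide) h2 h4) ?_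
    (by norm_num)
  intro N r δ hN hr hδ hmem
  have htb : ∀ u ∈ N, _ := fun u hu =>
    type_bound (by decide : Even 4) (by norm_num : 4 ≤ 4) (hev u) (hmem u hu).1 (hmem u hu).2.1
      (hmem u hu).2.2
  have hN4 : N.card ≤ 4 := by
    rw [hN]
    refine (card_le_card (filter_subset _ _)).trans ?_
    rw [card_nb hs, hwf, hwD]
  have hN2 : 2 ≤ N.card := by rw [hN]; exact h2
  have hr0 : ∀ u ∈ N, 0 ≤ r u := fun u hu => by rw [hr]; exact (htb u hu).1
  have hr1 : ∀ u ∈ N, r u ≤ 1 / 3 := fun u hu => by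
    have h3 := (htb u hu).2.1
    rw [hr]
    refine h3.trans ?_
    norm_num
  have hδ' : ∀ u ∈ N, (142 / 1000 - (3 / 2 * (1 - r u) - 1) / 2) / 3 ≤ δ u := fun u hu => by
    have h3 : -(1 / 2) * Real.log (1 - r u) ≤
        pp (((4 : ℕ) : ℝ) - 1) (4 - 1) + (((4 : ℕ) : ℝ) - 1) * δ u := by
      rw [hr, hδ]
      exact (htb u hu).2.2.2
    have h4 := S3D_gp
    have h5 := S3D_log_tangent (x := 1 - r u) (a := 2 / 3) (by
      have := hr1 u hu
      linarith) (by norm_num)
    push_cast at h3 h4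
    linarith
  have hv1 : 2 / 3 * (N.card : ℝ) ≤ ∑ u ∈ N, (1 - r u) := by
    have h3 : ∑ _u ∈ N, (2 / 3 : ℝ) ≤ ∑ u ∈ N, (1 - r u) := sum_le_sum fun u hu => by
      have := hr1 u hu
      linarith
    rw [sum_const, nsmul_eq_mul] at h3
    linarith
  have hv2 : ∑ u ∈ N, (1 - r u) ≤ N.card := by
    have h3 : ∑ u ∈ N, (1 - r u) ≤ ∑ _u ∈ N, (1 : ℝ) := sum_le_sum fun u hu => by
      have := hr0 u hu
      linarith
    rwa [sum_const, nsmul_eq_mul, mul_one] at h3
  have hnum := S3D_num (m := N.card) (by omega) hv1 hv2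
  have hδs : (N.card * (142 / 1000) - (3 / 2 * ∑ u ∈ N, (1 - r u) - N.card) / 2) / 3 ≤
      ∑ u ∈ N, δ u := by
    have h3 := sum_le_sum hδ'
    have e : ∀ u ∈ N, (142 / 1000 - (3 / 2 * (1 - r u) - 1) / 2) / 3 =
        (142 / 1000 + 1 / 2) / 3 - 1 / 4 * (1 - r u) := fun u _ => by ring
    rw [sum_congr rfl e, sum_sub_distrib, ← mul_sum, sum_const, nsmul_eq_mul] at h3
    linarith
  have h7 : KL.hs 4 = AA 4 - phi 4 (4 - 1) := rfl
  have h8 : ∑ u ∈ N, (AA 4 - phi 4 (4 - 1) - δ u) =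
      N.card * (AA 4 - phi 4 (4 - 1)) - ∑ u ∈ N, δ u := by
    rw [sum_sub_distrib, sum_const, nsmul_eq_mul]
  rw [h8]
  rw [h7] at hnum
  push_cast
  linarith

/-- **C2, at least two non-full neighbours**, `D = 2`. -/
theorem S3_two {hd : E → Bool → V} (hs : Simple hd) (hev : ∀ v, Even (deg hd v)) {A : Finset V}
    (hT : Top hd A 2) {w : V} (hw : w ∈ A) (hwf : Full hd A w) (hwD : deg hd w = 2)
    (h2 : 2 ≤ ((nb hd A w).filter fun u => kk hd A u < deg hd u).card) : Red hd A := by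
  refine S3_step hs hev hT hw hwf hwD (fun d hd h2 h4 => hs_anti d 2 hd (by decide) h2 h4) ?_
    (by norm_num)
  intro N r δ hN hr hδ hmem
  have hN2 : N.card = 2 := by
    apply le_antisymm
    · rw [hN]
      refine (card_le_card (filter_subset _ _)).trans ?_
      rw [card_nb hs, hwf, hwD]
    · rw [hN]
      exact h2
  have hk : ∀ u ∈ N, kk hd A u = 1 := fun u hu => by
    have := hmem u hu
    omega
  have hr0 : ∀ u ∈ N, 1 - r u = 1 := fun u hu => by
    rw [hr]
    simp only [hk u hu]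
    unfold rh
    norm_num
  have hδ0 : ∀ u ∈ N, 0 ≤ δ u := fun u hu => by
    rw [hδ]
    have h3 := phiMono (deg hd u) (kk hd A u) (hev u) (hmem u hu).1 (hmem u hu).2.1
    linarith
  have h3 : ∑ u ∈ N, (1 - r u) = 2 := by
    rw [sum_congr rfl hr0, sum_const, hN2]
    norm_num
  have h4 : 0 ≤ ∑ u ∈ N, δ u := sum_nonneg hδ0
  have h8 : ∑ u ∈ N, (AA 2 - phi 2 (2 - 1) - δ u) =
      2 * (AA 2 - phi 2 (2 - 1)) - ∑ u ∈ N, δ u := by
    rw [sum_sub_distrib, sum_const, hN2, nsmul_eq_mul]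
    norm_num
  rw [h3, S3D_FF2, h8]
  have h5 : AA 2 = -(2 * Real.log 2) / 3 := by
    unfold AA
    have := NumC23_PK3
    norm_num at this ⊢
    rw [this]
  have h6 := Real.log_two_gt_d9
  have h7 : Real.log (1 / 2) = -Real.log 2 := by
    rw [one_div, Real.log_inv]
  rw [h7]
  push_cast
  norm_num at h6
  linarith

end MP_a3e05c_co.KL
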